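import Mathlib

set_option autoImplicit false
open Filter Topology

namespace Pool.Agent.H.MP_b9ea36_ag

abbrev M := Matrix (Fin 5) (Fin 5) ℝ

def F (a : M) : ℝ := a 0 0 * a 0 1 * a 0 2 * a 2 2 * a 2 3 * a 2 4 *
  (a 3 4 * a 2 2 * a 0 0 - a 3 0 * a 2 4 * a 0 2) * (a 4 4 * a 2 2 * a 0 0 - a 4 0 * a 2 4 * a 0 2) *
  (a 1 3 * a 2 2 * a 0 1 - a 1 1 * a 2 3 * a 0 2) *
  ((a 3 3 * a 2 2 * a 0 0 - a 3 0 * a 2 3 * a 0 2) * a 0 1 * (a 4 4 * a 2 2 * a 0 0 - a 4 0 * a 2 4 * a 0 2) -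
    (a 4 1 * a 0 0 - a 4 0 * a 0 1) * a 0 2 * a 2 3 * (a 3 4 * a 2 2 * a 0 0 - a 3 0 * a 2 4 * a 0 2))

theorem gen {U : Set M} (hU : IsOpen U) (h : U.Nonempty) : ∃ a ∈ U, F a ≠ 0 := by
  obtain ⟨a, ha⟩ := h
  by_contra hc
  push Not at hc
  let b : M := Matrix.of fun i j => if i.1 = j.1 ∧ i.1 ≠ 1 ∨ i.1 = 3 ∧ j.1 = 4 then 2 else 1
  have c : Continuous fun t : ℝ => a + t • (b - a) := by fun_prop
  have an : AnalyticOnNhd ℝ (fun t : ℝ => F (a + t • (b - a))) Set.univ := fun t _ => by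
    simp only [F, Matrix.add_apply, Matrix.smul_apply, smul_eq_mul]
    fun_prop
  have := an.eqOn_zero_of_preconnected_of_eventuallyEq_zero isPreconnected_univ (Set.mem_univ 0)
    (by filter_upwards [c.continuousAt.preimage_mem_nhds (hU.mem_nhds (by simpa using ha))] with t ht
        exact hc _ ht) (Set.mem_univ 1)
  simp only [one_smul, add_sub_cancel, F, b, Matrix.of_apply] at this
  norm_num at this

theorem comp (a : M) (h : F a ≠ 0) : ∃ b : M, b.rank ≤ 2 ∧ ∀ i j : Fin 5, (j - i).1 < 3 → b i j = a i j := by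
  simp only [F, mul_ne_zero_iff] at h
  obtain ⟨⟨⟨⟨⟨⟨⟨⟨⟨h0, h1⟩, h2⟩, h3⟩, h4⟩, h5⟩, p1⟩, p2⟩, p3⟩, p4⟩ := h
  obtain ⟨w3, e3⟩ : ∃ w, w = a 2 3 * a 0 2 / a 2 2 := ⟨_, rfl⟩
  obtain ⟨w4, e4⟩ : ∃ w, w = a 2 4 * a 0 2 / a 2 2 := ⟨_, rfl⟩
  have n3 : w3 ≠ 0 := by rw [e3]; positivity
  have n4 : w4 ≠ 0 := by rw [e4]; positivity
  obtain ⟨y3, f3⟩ : ∃ y, y = a 3 4 / w4 - a 3 0 / a 0 0 := ⟨_, rfl⟩
  obtain ⟨y4, f4⟩ : ∃ y, y = a 4 4 / w4 - a 4 0 / a 0 0 := ⟨_, rfl⟩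
  have m3 : y3 ≠ 0 := fun h => p1 (by rw [f3, e4] at h; field_simp at h; linear_combination h)
  have m4 : y4 ≠ 0 := fun h => p2 (by rw [f4, e4] at h; field_simp at h; linear_combination h)
  obtain ⟨z3, g3⟩ : ∃ z, z = (a 3 3 / w3 - a 3 0 / a 0 0) / y3 := ⟨_, rfl⟩
  obtain ⟨z1, g1⟩ : ∃ z, z = (a 4 1 / a 0 1 - a 4 0 / a 0 0) / y4 := ⟨_, rfl⟩
  have k : z3 - z1 ≠ 0 := fun h => p4 (by
    rw [g3, g1, div_sub_div _ _ m3 m4, div_eq_zero_iff, or_iff_left (mul_ne_zero m3 m4), f3, f4, e3, e4] at h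
    field_simp at h
    linear_combination h)
  obtain ⟨y1, f1⟩ : ∃ y, y = (a 1 3 / w3 - a 1 1 / a 0 1) / (z3 - z1) := ⟨_, rfl⟩
  have m1 : y1 ≠ 0 := by
    rw [f1]
    refine div_ne_zero (fun h => p3 ?_) k
    rw [e3] at h; field_simp at h; linear_combination h
  obtain ⟨x1, d1⟩ : ∃ x, x = a 1 1 / a 0 1 - y1 * z1 := ⟨_, rfl⟩
  refine ⟨!![1, 0; x1, y1; a 2 2 / a 0 2, 0; a 3 0 / a 0 0, y3; a 4 0 / a 0 0, y4] *
    !![a 0 0, a 0 1, a 0 2, w3, w4; 0, a 0 1 * z1, (a 1 2 - x1 * a 0 2) / y1, w3 * z3, w4],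
    (Matrix.rank_mul_le_left _ _).trans (Matrix.rank_le_width _), fun i j hij => ?_⟩
  fin_cases i <;> fin_cases j <;> first | exact absurd hij (by decide) | simp [Matrix.mul_apply, Fin.sum_univ_two]
  · rw [d1]; field_simp; ring
  · field_simp; ring
  · rw [d1, show a 1 3 = w3 * (y1 * (z3 - z1) + a 1 1 / a 0 1) by rw [f1]; field_simp; ring]; ring
  · field_simp
  · rw [e3]; field_simp
  · rw [e4]; field_simp
  · field_simp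
  · rw [g3]; field_simp; ring
  · rw [f3]; field_simp; ring
  · field_simp
  · rw [g1]; field_simp; ring
  · rw [f4]; field_simp; ring

end Pool.Agent.H.MP_b9ea36_ag
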